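import Pool.Agent.Y121.ZI.Stm2

/-!
# Opposites of tensor products
-/

set_option autoImplicit false

open scoped TensorProduct

universe u v w

namespace Pool.Agent.Y180.ZI

open Module Pool.Agent.Y121.ZI Pool.Agent.Y121.ZI.NCTheory

section

variable {K : Type u} [Field K] {T : NCTheory.{u, v, w} K}
variable {A B C D X Y Z : T.Obj}

/-- External product with a fixed vector on the left. -/
noncomputable def kR (x : T.H A) : T.H B →ₗ[K] T.H (T.ten A B) :=
  { toFun := fun y => kx x y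
    map_add' := fun y y' => kx_add_right x y y'
    map_smul' := fun c y => kx_smul_right c x y }

/-- External product with a fixed vector on the right. -/
noncomputable def kL (y : T.H B) : T.H A →ₗ[K] T.H (T.ten A B) :=
  { toFun := fun x => kx x y
    map_add' := fun x x' => kx_add_left x x' y
    map_smul' := fun c x => kx_smul_left c x y }

lemma kx_sum_right {ι : Type} (s : Finset ι) (x : T.H A) (y : ι → T.H B) :
    kx x (∑ i ∈ s, y i) = ∑ i ∈ s, kx x (y i) := map_sum (kR x) y s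

lemma kx_sum_left {ι : Type} (s : Finset ι) (x : ι → T.H A) (y : T.H B) :
    kx (∑ i ∈ s, x i) y = ∑ i ∈ s, kx (x i) y := map_sum (kL y) x s

/-- coordinate of a vector of the line -/
lemma exists_coef (T : NCTheory.{u, v, w} K) :
    ∃ l : T.H T.one →ₗ[K] K, ∀ x : T.H T.one, x = l x • T.e := by
  have hinj : Function.Injective (LinearMap.toSpanSingleton K (T.H T.one) T.e) := by
    intro r s h
    simp only [LinearMap.toSpanSingleton_apply] at h
    exact smul_left_injective K T.line.1 h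
  have hsur : Function.Surjective (LinearMap.toSpanSingleton K (T.H T.one) T.e) := by
    intro x
    obtain ⟨c, hc⟩ := T.line.2.1 x
    exact ⟨c, by rw [LinearMap.toSpanSingleton_apply, hc]⟩
  let E := LinearEquiv.ofBijective _ ⟨hinj, hsur⟩
  refine ⟨E.symm.toLinearMap, fun x => ?_⟩
  have h : E (E.symm x) = x := E.apply_symm_apply x
  exact h.symm

/-- `Z'` is a dual of `Z`. -/
def Dl (Z Z' : T.Obj) : Prop :=
  ∃ c ∈ T.S T.one (T.ten Z Z'), ∃ d ∈ T.S (T.ten Z' Z) T.one, ∃ (ι : Type) (_ : Fintype ι)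
    (a : ι → T.H Z) (α : ι → T.H Z') (b : T.H Z' →ₗ[K] T.H Z →ₗ[K] K),
    c T.e = ∑ i, kx (a i) (α i) ∧ (∀ ζ x, d (kx ζ x) = b ζ x • T.e) ∧
      (∀ x, ∑ i, b (α i) x • a i = x) ∧ ∀ ζ, ∑ i, b ζ (a i) • α i = ζ

lemma dl_op (Z : T.Obj) : Dl Z (T.op Z) := by
  obtain ⟨c, hc, d, hd, n, a, α, b, h1, h2, h3, h4⟩ := T.cor_op Z
  exact ⟨c, of_cor hc, d, of_cor hd, Fin n, inferInstance, a, α, b, h1, h2, h3, h4⟩

lemma exists_theta {Z Z1 Z2 : T.Obj} {ι : Type} [Fintype ι]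
    {d : T.H (T.ten Z1 Z) →ₗ[K] T.H T.one} (hd : d ∈ T.S (T.ten Z1 Z) T.one)
    {b : T.H Z1 →ₗ[K] T.H Z →ₗ[K] K} (hdb : ∀ ζ x, d (kx ζ x) = b ζ x • T.e)
    {c' : T.H T.one →ₗ[K] T.H (T.ten Z Z2)} (hc' : c' ∈ T.S T.one (T.ten Z Z2))
    {a' : ι → T.H Z} {α' : ι → T.H Z2} (hca : c' T.e = ∑ i, kx (a' i) (α' i)) :
    ∃ θ ∈ T.S Z1 Z2, ∀ ζ, θ ζ = ∑ i, b ζ (a' i) • α' i := by
  obtain ⟨ρ, hρ, ρ', hρ', hρ1, hρ2⟩ := exists_runit Z1
  obtain ⟨s, hs, s', hs', hs1, hs2⟩ := exists_assoc Z1 Z Z2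
  obtain ⟨μ, hμ, μ', hμ', hμ1, hμ2⟩ := exists_unit Z2
  refine ⟨μ ∘ₗ ex d (LinearMap.id : T.H Z2 →ₗ[K] T.H Z2) ∘ₗ s' ∘ₗ
    ex (LinearMap.id : T.H Z1 →ₗ[K] T.H Z1) c' ∘ₗ ρ',
    S_comp (S_comp (S_comp (S_comp hρ' (S_ex S_id hc')) hs') (S_ex hd S_id)) hμ, fun ζ => ?_⟩
  simp only [LinearMap.comp_apply]
  rw [hρ2, ex_kx, LinearMap.id_apply, hca, kx_sum_right, map_sum, map_sum, map_sum]
  refine Finset.sum_congr rfl fun i _ => ?_
  rw [hs2, ex_kx, hdb, kx_smul_left, map_smul, hμ1, LinearMap.id_apply]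

/-- Duals are unique. -/
lemma dl_unique {Z Z1 Z2 : T.Obj} (h : Dl Z Z1) (h' : Dl Z Z2) : OIso Z1 Z2 := by
  obtain ⟨c, hc, d, hd, ι, _, a, α, b, h1, h2, h3, h4⟩ := h
  obtain ⟨c', hc', d', hd', ι', _, a', α', b', k1, k2, k3, k4⟩ := h'
  obtain ⟨θ, hθ, e1⟩ := exists_theta hd h2 hc' k1
  obtain ⟨θ', hθ', e2⟩ := exists_theta hd' k2 hc h1
  refine ⟨θ, hθ, θ', hθ', ?_, ?_, rfl⟩
  · apply LinearMap.ext
    intro ζ
    rw [LinearMap.comp_apply, e2, LinearMap.id_apply]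
    conv_rhs => rw [← h4 ζ]
    refine Finset.sum_congr rfl fun k _ => ?_
    congr 1
    conv_rhs => rw [← k3 (a k)]
    rw [e1, map_sum, LinearMap.sum_apply, map_sum]
    refine Finset.sum_congr rfl fun i _ => ?_
    rw [map_smul, map_smul, LinearMap.smul_apply, smul_eq_mul, smul_eq_mul, mul_comm]
  · apply LinearMap.ext
    intro ζ
    rw [LinearMap.comp_apply, e1, LinearMap.id_apply]
    conv_rhs => rw [← k4 ζ]
    refine Finset.sum_congr rfl fun k _ => ?_
    congr 1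
    conv_rhs => rw [← h3 (a' k)]
    rw [e2, map_sum, LinearMap.sum_apply, map_sum]
    refine Finset.sum_congr rfl fun i _ => ?_
    rw [map_smul, map_smul, LinearMap.smul_apply, smul_eq_mul, smul_eq_mul, mul_comm]

/-- Duals of isomorphic objects. -/
lemma dl_iso {X Y Z : T.Obj} (i : OIso X Y) (h : Dl Y Z) : Dl X Z := by
  obtain ⟨θ, hθ, θ', hθ', e1, e2, -⟩ := i
  obtain ⟨c, hc, d, hd, ι, _, a, α, b, h1, h2, h3, h4⟩ := h
  have f1 : ∀ x, θ' (θ x) = x := fun x => congrArg (fun f => f x) e1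
  have f2 : ∀ x, θ (θ' x) = x := fun x => congrArg (fun f => f x) e2
  refine ⟨ex θ' (LinearMap.id : T.H Z →ₗ[K] T.H Z) ∘ₗ c, S_comp hc (S_ex hθ' S_id),
    d ∘ₗ ex (LinearMap.id : T.H Z →ₗ[K] T.H Z) θ, S_comp (S_ex S_id hθ) hd, ι, inferInstance,
    fun i => θ' (a i), α, (LinearMap.lcomp K K θ) ∘ₗ b, ?_, ?_, ?_, ?_⟩
  · rw [LinearMap.comp_apply, h1, map_sum]
    exact Finset.sum_congr rfl fun i _ => by rw [ex_kx, LinearMap.id_apply]
  · intro ζ x
    rw [LinearMap.comp_apply, ex_kx, LinearMap.id_apply, h2]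
    rfl
  · intro x
    have h5 := congrArg θ' (h3 (θ x))
    rw [map_sum, f1] at h5
    conv_rhs => rw [← h5]
    refine Finset.sum_congr rfl fun i _ => ?_
    rw [map_smul]
    rfl
  · intro ζ
    conv_rhs => rw [← h4 ζ]
    refine Finset.sum_congr rfl fun i _ => ?_
    congr 1
    change b ζ (θ (θ' (a i))) = _
    rw [f2]

/-- Duals of tensor products. -/
lemma dl_ten {X X' Y Y' : T.Obj} (h : Dl X X') (h' : Dl Y Y') :
    Dl (T.ten X Y) (T.ten Y' X') := by
  obtain ⟨c, hc, d, hd, ι, _, a, α, b, h1, h2, h3, h4⟩ := h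
  obtain ⟨c', hc', d', hd', ι', _, a', α', b', k1, k2, k3, k4⟩ := h'
  obtain ⟨l, hl⟩ := exists_coef T
  have hle : ∀ r : K, l (r • T.e) = r := by
    intro r
    have := hl (r • T.e)
    exact (smul_left_injective K T.line.1 this).symm
  -- the coevaluation
  obtain ⟨μ1, hμ1, μ1', hμ1', -, u2⟩ := exists_unit X'
  obtain ⟨s1, hs1, s1', hs1', v1, -⟩ := exists_assoc Y Y' X'
  obtain ⟨s2, hs2, s2', hs2', -, v2⟩ := exists_assoc X Y (T.ten Y' X')
  let idX : T.H X →ₗ[K] T.H X := LinearMap.id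
  let idX' : T.H X' →ₗ[K] T.H X' := LinearMap.id
  let idY : T.H Y →ₗ[K] T.H Y := LinearMap.id
  let idY' : T.H Y' →ₗ[K] T.H Y' := LinearMap.id
  let c'' : T.H T.one →ₗ[K] T.H (T.ten (T.ten X Y) (T.ten Y' X')) :=
    s2' ∘ₗ ex idX s1 ∘ₗ ex idX (ex c' idX') ∘ₗ ex idX μ1' ∘ₗ c
  have hc'' : c'' ∈ T.S T.one (T.ten (T.ten X Y) (T.ten Y' X')) :=
    S_comp (S_comp (S_comp (S_comp hc (S_ex S_id hμ1')) (S_ex S_id (S_ex hc' S_id)))
      (S_ex S_id hs1)) hs2'
  have ec : c'' T.e = ∑ p : ι × ι', kx (kx (a p.1) (a' p.2)) (kx (α' p.2) (α p.1)) := by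
    change s2' (ex idX s1 (ex idX (ex c' idX') (ex idX μ1' (c T.e)))) = _
    rw [h1, map_sum, map_sum, map_sum, map_sum, Fintype.sum_prod_type]
    refine Finset.sum_congr rfl fun i _ => ?_
    rw [ex_kx, u2, ex_kx, ex_kx, ex_kx, k1, kx_sum_left, map_sum, kx_sum_right, map_sum]
    refine Finset.sum_congr rfl fun j _ => ?_
    rw [v1]
    change s2' (kx (a i) (kx (a' j) (kx (α' j) (α i)))) = _
    rw [v2]
  -- the evaluation
  obtain ⟨s3, hs3, s3', hs3', w1, -⟩ := exists_assoc Y' X' (T.ten X Y)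
  obtain ⟨s4, hs4, s4', hs4', -, w2⟩ := exists_assoc X' X Y
  obtain ⟨μ2, hμ2, μ2', hμ2', u3, -⟩ := exists_unit Y
  let d'' : T.H (T.ten (T.ten Y' X') (T.ten X Y)) →ₗ[K] T.H T.one :=
    d' ∘ₗ ex idY' μ2 ∘ₗ ex idY' (ex d idY) ∘ₗ ex idY' s4' ∘ₗ s3
  have hd'' : d'' ∈ T.S (T.ten (T.ten Y' X') (T.ten X Y)) T.one :=
    S_comp (S_comp (S_comp (S_comp hs3 (S_ex S_id hs4')) (S_ex S_id (S_ex hd S_id)))
      (S_ex S_id hμ2)) hd'
  have ed : ∀ η ξ x y, d'' (kx (kx η ξ) (kx x y)) = (b ξ x * b' η y) • T.e := by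
    intro η ξ x y
    change d' (ex idY' μ2 (ex idY' (ex d idY) (ex idY' s4' (s3 (kx (kx η ξ) (kx x y)))))) = _
    rw [w1, ex_kx, w2, ex_kx, ex_kx, ex_kx, h2, kx_smul_left, map_smul, u3, kx_smul_right,
      map_smul]
    change b ξ x • d' (kx η y) = _
    rw [k2, smul_smul]
  let b'' : T.H (T.ten Y' X') →ₗ[K] T.H (T.ten X Y) →ₗ[K] K :=
    LinearMap.mk₂ K (fun ζ z => l (d'' (kx ζ z)))
      (fun ζ ζ' z => by rw [kx_add_left, map_add, map_add])
      (fun r ζ z => by rw [kx_smul_left, map_smul, map_smul])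
      (fun ζ z z' => by rw [kx_add_right, map_add, map_add])
      (fun r ζ z => by rw [kx_smul_right, map_smul, map_smul])
  have eb : ∀ η ξ x y, b'' (kx η ξ) (kx x y) = b ξ x * b' η y := by
    intro η ξ x y
    change l (d'' (kx (kx η ξ) (kx x y))) = _
    rw [ed, hle]
  refine ⟨c'', hc'', d'', hd'', ι × ι', inferInstance, fun p => kx (a p.1) (a' p.2),
    fun p => kx (α' p.2) (α p.1), b'', ec, fun ζ z => hl _, ?_, ?_⟩
  · have key : (∑ p : ι × ι', (b'' (kx (α' p.2) (α p.1))).smulRight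
        (kx (a p.1) (a' p.2) : T.H (T.ten X Y))) = LinearMap.id := by
      refine kx_ext fun x y => ?_
      rw [LinearMap.sum_apply, LinearMap.id_apply, Fintype.sum_prod_type]
      conv_rhs => rw [← h3 x, ← k3 y, kx_sum_left]
      refine Finset.sum_congr rfl fun i _ => ?_
      rw [kx_sum_right]
      refine Finset.sum_congr rfl fun j _ => ?_
      rw [LinearMap.smulRight_apply, eb, kx_smul_left, kx_smul_right, smul_smul]
    intro z
    have := congrArg (fun f => f z) key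
    simp only [LinearMap.sum_apply, LinearMap.smulRight_apply, LinearMap.id_apply] at this
    exact this
  · have key : (∑ p : ι × ι', (b''.flip (kx (a p.1) (a' p.2))).smulRight
        (kx (α' p.2) (α p.1) : T.H (T.ten Y' X'))) = LinearMap.id := by
      refine kx_ext fun η ξ => ?_
      rw [LinearMap.sum_apply, LinearMap.id_apply, Fintype.sum_prod_type_right]
      conv_rhs => rw [← k4 η, ← h4 ξ, kx_sum_left]
      refine Finset.sum_congr rfl fun j _ => ?_
      rw [kx_sum_right]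
      refine Finset.sum_congr rfl fun i _ => ?_
      rw [LinearMap.smulRight_apply, LinearMap.flip_apply, eb, kx_smul_left, kx_smul_right,
        smul_smul, mul_comm]
    intro z
    have := congrArg (fun f => f z) key
    simp only [LinearMap.sum_apply, LinearMap.smulRight_apply, LinearMap.id_apply,
      LinearMap.flip_apply] at this
    exact this

lemma oiso_op {X Y : T.Obj} (i : OIso X Y) : OIso (T.op X) (T.op Y) :=
  dl_unique (dl_op X) (dl_iso i (dl_op Y))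

/-- A pair of operators with composition the identity. -/
lemma exists_fd' {R : T.Obj} (h3 : 0 < a T.one LinearMap.id R LinearMap.id) :
    ∃ f ∈ T.S T.one R, ∃ d ∈ T.S R T.one, d ∘ₗ f = LinearMap.id := by
  have h4 : F T.one R LinearMap.id LinearMap.id ≠ 0 := by
    intro h
    have h5 : Pool.Agent.Y133.Half.rk (0 : T.S R T.one →ₗ[K] T.S T.one R →ₗ[K] K) = 0 := by
      rw [Pool.Agent.Y133.Half.rk, LinearMap.range_zero, finrank_bot]
    have h6 : a T.one LinearMap.id R LinearMap.id = 0 := by rw [a, h]; exact h5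
    omega
  obtain ⟨u, v, huv⟩ : ∃ u v, F T.one R LinearMap.id LinearMap.id u v ≠ 0 := by
    by_contra h
    push Not at h
    exact h4 (LinearMap.ext fun u => LinearMap.ext fun v => h u v)
  obtain ⟨r, hr⟩ := T.line.2.1 ((u : T.H R →ₗ[K] T.H T.one) ((v : T.H T.one →ₗ[K] T.H R) T.e))
  have hr0 : r ≠ 0 := by
    rintro rfl
    rw [zero_smul] at hr
    apply huv
    rw [F_apply]
    have h5 : (u : T.H R →ₗ[K] T.H T.one) ∘ₗ (v : T.H T.one →ₗ[K] T.H R) = 0 := by
      by_contra h6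
      exact (ne_zero_iff_e.1 h6) hr
    rw [LinearMap.id_comp, LinearMap.id_comp, h5, LinearMap.comp_zero, map_zero]
  refine ⟨v, v.2, r⁻¹ • (u : T.H R →ₗ[K] T.H T.one), Submodule.smul_mem _ _ u.2, ?_⟩
  apply LinearMap.ext
  intro y
  obtain ⟨c, rfl⟩ := T.line.2.1 y
  rw [LinearMap.comp_apply, map_smul, map_smul, LinearMap.smul_apply, hr, LinearMap.id_apply,
    smul_smul, smul_smul, mul_assoc, inv_mul_cancel₀ hr0, mul_one]

end

section

variable {K : Type u} [Field K] [CharZero K] (T : NCTheory.{u, v, w} K)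

theorem opten : SOpTen T := fun X Y =>
  (dl_unique (dl_op (T.ten X Y)) (dl_ten (dl_op X) (dl_op Y))).trans (OIso.swap _ _)

variable {T} in
/-- Exchange of the two middle factors. -/
lemma oiso_mid (A B C D : T.Obj) :
    OIso (T.ten (T.ten A B) (T.ten C D)) (T.ten (T.ten A C) (T.ten B D)) := by
  have i1 := OIso.assoc A B (T.ten C D)
  have i2 : OIso (T.ten A (T.ten B (T.ten C D))) (T.ten A (T.ten C (T.ten B D))) :=
    OIso.ten (PIso.refl A LinearMap.id)
      (((OIso.assoc B C D).symm.trans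
        (OIso.ten (OIso.swap B C) (PIso.refl D LinearMap.id))).trans (OIso.assoc C B D))
  exact (i1.trans i2).trans (OIso.assoc A C (T.ten B D)).symm

theorem zzadd : SZzAdd T := by
  intro A m n
  have i1 : OIso (T.pow A (m + n)) (T.ten (T.pow A m) (T.pow A n)) := (OIso.pow_add A m n).symm
  have i2 : OIso (zz A (m + n)) (T.ten (T.ten (T.pow A m) (T.pow A n))
      (T.op (T.ten (T.pow A m) (T.pow A n)))) := OIso.ten i1 (oiso_op i1)
  have i3 : OIso (T.ten (T.ten (T.pow A m) (T.pow A n)) (T.op (T.ten (T.pow A m) (T.pow A n))))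
      (T.ten (T.ten (T.pow A m) (T.pow A n))
        (T.ten (T.op (T.pow A m)) (T.op (T.pow A n)))) :=
    OIso.ten (PIso.refl _ LinearMap.id) (opten T _ _)
  exact (i2.trans i3).trans (oiso_mid _ _ _ _)

theorem retr (haz : SAzz T) : SRetr T := by
  intro A hpos m n hmn
  obtain ⟨r, rfl⟩ := Nat.exists_eq_add_of_le hmn
  have h3 : 0 < a T.one LinearMap.id (zz A r) LinearMap.id := by
    have h1 := haz (T.pow A r)
    have h2 := hpos r
    rw [al, ← h1] at h2
    exact h2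
  obtain ⟨f, hf, d, hd, hdf⟩ := exists_fd' h3
  obtain ⟨ρ, hρ, ρ', hρ', hρ1, hρ2⟩ := exists_runit (zz A m)
  obtain ⟨θ, hθ, θ', hθ', e1, e2, -⟩ := zzadd T A m r
  let I : T.H (zz A m) →ₗ[K] T.H (zz A m) := LinearMap.id
  refine ⟨θ' ∘ₗ ex I f ∘ₗ ρ', S_comp (S_comp hρ' (S_ex S_id hf)) hθ',
    (ρ ∘ₗ ex I d) ∘ₗ θ, S_comp hθ (S_comp (S_ex S_id hd) hρ), ?_⟩
  apply LinearMap.ext
  intro x
  have f2 : ∀ x, θ (θ' x) = x := fun x => congrArg (fun f => f x) e2
  have f3 : ∀ x, d (f x) = x := fun x => congrArg (fun f => f x) hdf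
  simp only [LinearMap.comp_apply, LinearMap.id_apply]
  rw [f2, hρ2, ex_kx, ex_kx, f3]
  exact hρ1 x

end

end Pool.Agent.Y180.ZI
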